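import Pool.Agent.H564R3.SBC.Final

set_option autoImplicit false

open Pool.Agent.H564R3.SBC Pool.Agent.Helper777.Prof MeasureTheory

namespace Pool.Agent.Results.MP_c73c36_mp.EveryRange

/-- For every `r` there is a finite system of forbidden patterns on `ℤ²` that has valid tilings,
none of them periodic, such that all translation-invariant probability measures on the valid
tilings agree on all patches of diameter `< r`, and such that the Strict Boundary Condition holds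
for all patches of diameter `< r`. -/
theorem result (r : ℕ) :
  ∃ k m : ℕ, ∃ F : Fin m → Finset (Fin 2 → ℤ) × ((Fin 2 → ℤ) → Fin k),
    (∃ X : (Fin 2 → ℤ) → Fin k, ∀ j : Fin m, ∀ a : Fin 2 → ℤ,
        ¬ ∀ i ∈ (F j).1, X (i + a) = (F j).2 i) ∧
    (∀ X : (Fin 2 → ℤ) → Fin k,
        (∀ j : Fin m, ∀ a : Fin 2 → ℤ, ¬ ∀ i ∈ (F j).1, X (i + a) = (F j).2 i) →
        ∀ a : Fin 2 → ℤ, a ≠ 0 → (fun i => X (i - a)) ≠ X) ∧
    (∀ DA : Finset (Fin 2 → ℤ), (∀ i ∈ DA, ∀ j ∈ DA, ∀ c, |i c - j c| < r) →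
      ∀ pA : (Fin 2 → ℤ) → Fin k, ∃ δ : ℝ, ∀ μ : Measure ((Fin 2 → ℤ) → Fin k),
        IsProbabilityMeasure μ →
        μ {X : (Fin 2 → ℤ) → Fin k | ∀ j : Fin m, ∀ a : Fin 2 → ℤ,
            ¬ ∀ i ∈ (F j).1, X (i + a) = (F j).2 i}ᶜ = 0 →
        (∀ a : Fin 2 → ℤ,
          Measure.map (fun X : (Fin 2 → ℤ) → Fin k => fun i => X (i - a)) μ = μ) →
        μ.real {X : (Fin 2 → ℤ) → Fin k | ∀ i ∈ DA, X i = pA i} = δ) ∧
    ∀ DA : Finset (Fin 2 → ℤ), (∀ i ∈ DA, ∀ j ∈ DA, ∀ c, |i c - j c| < r) →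
      ∀ pA : (Fin 2 → ℤ) → Fin k, ∃ C : ℝ,
      ∀ X Y : (Fin 2 → ℤ) → Fin k,
        (∀ j : Fin m, ∀ a : Fin 2 → ℤ, ¬ ∀ i ∈ (F j).1, X (i + a) = (F j).2 i) →
        {i : Fin 2 → ℤ | Y i ≠ X i}.Finite →
        |((((Set.ncard {a : Fin 2 → ℤ | (∀ i ∈ DA, Y (i + a) = pA i) ∧
                ¬ ∀ i ∈ DA, X (i + a) = pA i} : ℕ) : ℤ) -
            ((Set.ncard {a : Fin 2 → ℤ | (∀ i ∈ DA, X (i + a) = pA i) ∧
                ¬ ∀ i ∈ DA, Y (i + a) = pA i} : ℕ) : ℤ) : ℤ) : ℝ)|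
          ≤ C * ((Set.ncard {q : Fin m × (Fin 2 → ℤ) |
                  ∀ i ∈ (F q.1).1, Y (i + q.2) = (F q.1).2 i} : ℕ) : ℝ) := by
  classical
  have hs : 0 < r + 1 := Nat.succ_pos r
  refine ⟨3, mm (r + 1), FF (r + 1), ?_, ?_, ?_, ?_⟩
  · obtain ⟨τ, hτ⟩ := kexist
    refine ⟨cfg (r + 1) τ, valid_iff.2 fun a => ⟨τ, hτ, a, fun v _ => rfl⟩⟩
  · intro X hX a ha h
    exact ha (no_per hs (valid_iff.1 hX) a fun i => congrFun h i)
  · intro DA hd pA
    rcases DA.eq_empty_or_nonempty with rfl | hne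
    · refine ⟨1, fun μ hμ _ _ => ?_⟩
      simp
    · obtain ⟨δ, C, -, h⟩ := pattern hs DA hne (fun i hi j hj c => by
        have := hd i hi j hj c
        push_cast
        linarith) pA
      refine ⟨δ, fun μ hμ h0 hinv => ?_⟩
      have hgood : ∀ᵐ Z ∂μ, Good (r + 1) Z := by
        rw [ae_iff]
        refine measure_mono_null (fun Z hZ => ?_) h0
        intro hv
        have h1 := valid_iff.1 hv 0
        have h2 : S 0 Z = Z := by
          funext i
          simp only [S, add_zero]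
        rw [h2] at h1
        exact hZ h1
      have h3 := h _ _ _ (func_meas μ hinv hgood)
      rw [mul_one, mul_zero] at h3
      have h4 := abs_nonpos_iff.1 h3
      rw [sub_eq_zero] at h4
      rw [← h4]
      have hmeas : MeasurableSet {X : (Fin 2 → ℤ) → Fin 3 | ∀ i ∈ DA, X i = pA i} := by
        have : {X : (Fin 2 → ℤ) → Fin 3 | ∀ i ∈ DA, X i = pA i} =
            ⋂ i ∈ DA, (fun X : (Fin 2 → ℤ) → Fin 3 => X i) ⁻¹' {pA i} := by
          ext X
          simp
        rw [this]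
        exact Finset.measurableSet_biInter _ fun i _ =>
          (measurable_pi_apply i) (measurableSet_singleton _)
      have h5 : (fun Z : Cf => ind (∀ i ∈ DA, Z i = pA i)) =
          Set.indicator {X : (Fin 2 → ℤ) → Fin 3 | ∀ i ∈ DA, X i = pA i} (fun _ => (1 : ℝ)) := by
        funext Z
        by_cases hZ : ∀ i ∈ DA, Z i = pA i
        · rw [ind, if_pos hZ, Set.indicator_of_mem (by exact hZ)]
        · rw [ind, if_neg hZ, Set.indicator_of_notMem (by exact hZ)]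
      have h6 : ∫ Z, ind (∀ i ∈ DA, Z i = pA i) ∂μ =
          μ.real {X : (Fin 2 → ℤ) → Fin 3 | ∀ i ∈ DA, X i = pA i} := by
        change ∫ Z, (fun Z : Cf => ind (∀ i ∈ DA, Z i = pA i)) Z ∂μ = _
        rw [h5, integral_indicator hmeas]
        simp
      rw [← h6]
  · intro DA hd pA
    rcases DA.eq_empty_or_nonempty with rfl | hne
    · refine ⟨0, fun X Y _ _ => ?_⟩
      simp
    · obtain ⟨δ, C, hC, h⟩ := pattern hs DA hne (fun i hi j hj c => by
        have := hd i hi j hj c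
        push_cast
        linarith) pA
      refine ⟨C, fun X Y hX hfin => ?_⟩
      have hX' := valid_iff.1 hX
      obtain ⟨B, hB, hcard⟩ := bad_le hfin hX'
      have h1 := h _ _ _ (func_exc hfin hX' B hB)
      rw [mul_zero, sub_zero] at h1
      rw [count_eq hfin DA pA]
      refine le_trans (le_of_eq ?_) (h1.trans (mul_le_mul_of_nonneg_left (by exact_mod_cast hcard) hC))
      rfl

end Pool.Agent.Results.MP_c73c36_mp.EveryRange
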